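import Pool.Agent.W584.GB.Defs

set_option autoImplicit false

/-!
# Labels on unordered configurations (task GB-GLEV)
-/

namespace Pool.Agent.W298.GB

open Pool.Agent.W584.GB

/-- Two families with the same multiset of values differ by a permutation. -/
theorem exists_perm_of_map_eq {ι α : Type} [Fintype ι] [DecidableEq α] (f g : ι → α)
    (h : (Finset.univ : Finset ι).val.map f = (Finset.univ : Finset ι).val.map g) :
    ∃ σ : Equiv.Perm ι, ∀ i, g (σ i) = f i := by
  have hc : ∀ y : α, Fintype.card {x // f x = y} = Fintype.card {x // g x = y} := by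
    intro y
    have h1 := congrArg (Multiset.count y) h
    rw [Multiset.count_map, Multiset.count_map] at h1
    rw [Fintype.card_subtype, Fintype.card_subtype]
    have e1 : (Finset.univ.filter fun x => f x = y).card =
        Multiset.card ((Finset.univ : Finset ι).val.filter fun a => y = f a) := by
      rw [Finset.card_def, Finset.filter_val]
      congr 1
      apply Multiset.filter_congr
      intro x _
      exact eq_comm
    have e2 : (Finset.univ.filter fun x => g x = y).card =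
        Multiset.card ((Finset.univ : Finset ι).val.filter fun a => y = g a) := by
      rw [Finset.card_def, Finset.filter_val]
      congr 1
      apply Multiset.filter_congr
      intro x _
      exact eq_comm
    rw [e1, e2, h1]
  let e : ∀ y : α, {x // f x = y} ≃ {x // g x = y} := fun y => Fintype.equivOfCardEq (hc y)
  refine ⟨(Equiv.sigmaFiberEquiv f).symm.trans
    ((Equiv.sigmaCongrRight e).trans (Equiv.sigmaFiberEquiv g)), fun i => ?_⟩
  exact (e (f i) ⟨i, rfl⟩).2

variable {V : Type} [Fintype V] [DecidableEq V]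

theorem glev_mk_perm {G : SimpleGraph V} (f : Conf G) (σ : Equiv.Perm (Fin 3)) :
    Quot.mk (PermRel G) (f.perm σ) = Quot.mk (PermRel G) f :=
  (Quot.sound ⟨σ, rfl⟩).symm

/-- The supports of the three points. -/
noncomputable def Su {G : SimpleGraph V} (f : Conf G) : Fin 3 → Finset V := fun i => supp (f.1 i)

theorem Su_perm {G : SimpleGraph V} (f : Conf G) (σ : Equiv.Perm (Fin 3)) :
    Su (f.perm σ) = Su f ∘ σ := rfl

theorem typ_three (a : Fin 3 → Finset V) :
    ((Finset.univ : Finset (Fin 3)).val.map a) = a 0 ::ₘ a 1 ::ₘ {a 2} := by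
  have : (Finset.univ : Finset (Fin 3)).val = 0 ::ₘ 1 ::ₘ {2} := rfl
  rw [this]
  simp

theorem typ_eq {G : SimpleGraph V} (f : Conf G) :
    typ f = (Finset.univ : Finset (Fin 3)).val.map (Su f) := rfl

theorem glev : S_lab → S_match → S_inj → S_nest → S_quot → S_cell → S_glev := by
  intro hlab hmatch hinj hnest hquot hcell V _ _ G hG N hN A _ s hs
  obtain ⟨h, hh1, hh2, hh3⟩ := hlab V G A s hs
  obtain ⟨hc1, hc2, hc3⟩ := hcell V G
  obtain ⟨-, hq⟩ := hquot V G
  classical
  let g : UC G → UC G → A := fun x y =>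
    if H : ∃ p : Conf G × Conf G, Quot.mk (PermRel G) p.1 = x ∧ Quot.mk (PermRel G) p.2 = y ∧
      p.2 ∈ St p.1 then h (Su H.choose.1) (Su H.choose.2) else 1
  have hOk : ∀ f f' : Conf G, f' ∈ St f → Ok G (Su f) (Su f') := by
    intro f f' hf
    refine ⟨fun i => hc1 _, fun i => hc1 _, hc3 f f' hf, ?_⟩
    intro i j u hij h1 h2
    exact hij (f.2 (hc2 _ _ u h1 h2))
  have hg : ∀ f f' : Conf G, f' ∈ St f →
      g (Quot.mk (PermRel G) f) (Quot.mk (PermRel G) f') = h (Su f) (Su f') := by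
    intro f f' hf
    have H : ∃ p : Conf G × Conf G, Quot.mk (PermRel G) p.1 = Quot.mk (PermRel G) f ∧
        Quot.mk (PermRel G) p.2 = Quot.mk (PermRel G) f' ∧ p.2 ∈ St p.1 := ⟨(f, f'), rfl, rfl, hf⟩
    have e : g (Quot.mk (PermRel G) f) (Quot.mk (PermRel G) f') =
        h (Su H.choose.1) (Su H.choose.2) := by
      simp only [g]
      rw [dif_pos H]
    rw [e]
    obtain ⟨k1, k2, k3⟩ := H.choose_spec
    obtain ⟨σ, hσ⟩ := hq _ _ k1.symm
    obtain ⟨ρ, hρ⟩ := hq _ _ k2.symm
    have k4 : f'.perm σ ∈ St (f.perm σ) := (hnest V G f).2.2 σ f' hf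
    have k5 : (f'.perm σ).perm (σ⁻¹ * ρ) = f'.perm ρ := by
      apply Subtype.ext
      funext i
      simp [Conf.perm]
    have k6 : (f'.perm σ).perm (σ⁻¹ * ρ) ∈ St (f.perm σ) := by
      rw [k5, ← hσ, ← hρ]
      exact k3
    have k7 := hinj V G hG _ _ _ k4 k6
    have k8 : ρ = σ := by
      have := congrArg (fun τ => σ * τ) k7
      simpa using this
    rw [hσ, hρ, k8, Su_perm, Su_perm]
    exact hh1 _ _ σ (hOk f f' hf)
  have hmem : ∀ f f1 : Conf G, (∀ i, Su f i ⊆ Su f1 i) →
      Quot.mk (PermRel G) f1 ∈ N.U (Quot.mk (PermRel G) f) ∧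
      g (Quot.mk (PermRel G) f) (Quot.mk (PermRel G) f1) = h (Su f) (Su f1) := by
    intro f f1 hsub
    obtain ⟨σ, hσ, hσ'⟩ := hmatch V G f f1 hsub
    refine ⟨?_, ?_⟩
    · rw [hN]
      exact ⟨f1.perm σ, hσ, glev_mk_perm f1 σ⟩
    · rw [← glev_mk_perm f1 σ, hg _ _ hσ]
      congr 1
      funext i
      exact hσ' i
  refine ⟨g, ?_, ?_, ?_⟩
  · intro x y hy z hz
    obtain ⟨f, rfl⟩ := Quot.exists_rep x
    rw [hN] at hy
    obtain ⟨f', hf', rfl⟩ := hy
    rw [hN] at hz
    obtain ⟨f'', hf'', rfl⟩ := hz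
    have hf3 : f'' ∈ St f := (hnest V G f).2.1 f' hf' f'' hf''
    rw [hg f f' hf', hg f' f'' hf'', hg f f'' hf3]
    exact hh2 _ _ _ (hOk _ _ hf') (hOk _ _ hf'')
  · intro x y v w M hvw hx hy
    obtain ⟨f, rfl⟩ := Quot.exists_rep x
    obtain ⟨f1, rfl⟩ := Quot.exists_rep y
    have hx' : typ f = ({v} : Finset V) ::ₘ M := hx
    have hy' : typ f1 = ({v, w} : Finset V) ::ₘ M := hy
    -- the point at v
    have hv : ({v} : Finset V) ∈ typ f := by rw [hx']; exact Multiset.mem_cons_self _ _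
    rw [typ_eq, Multiset.mem_map] at hv
    obtain ⟨i0, -, hi0⟩ := hv
    let F : Conf G := f.perm (Equiv.swap 0 i0)
    have hF : Quot.mk (PermRel G) F = Quot.mk (PermRel G) f := glev_mk_perm f _
    have hF0 : Su F 0 = {v} := by
      show Su f (Equiv.swap 0 i0 0) = {v}
      rw [Equiv.swap_apply_left, hi0]
    have hFt : typ F = ({v} : Finset V) ::ₘ M := by
      rw [← hx']
      exact (typ_eq_of_permRel f F ⟨_, rfl⟩).symm
    have hM : Su F 1 ::ₘ {Su F 2} = M := by
      rw [typ_eq, typ_three, hF0] at hFt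
      exact (Multiset.cons_inj_right _).mp hFt
    have hup : ((Finset.univ : Finset (Fin 3)).val.map (Function.update (Su F) 0 {v, w})) =
        (Finset.univ : Finset (Fin 3)).val.map (Su f1) := by
      rw [← typ_eq, hy', typ_three, ← hM]
      simp
    obtain ⟨σ, hσ⟩ := exists_perm_of_map_eq _ _ hup
    have hF1 : Quot.mk (PermRel G) (f1.perm σ) = Quot.mk (PermRel G) f1 := glev_mk_perm f1 _
    have hS1 : Su (f1.perm σ) = Function.update (Su F) 0 {v, w} := by
      funext i
      exact hσ i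
    have hsub : ∀ i, Su F i ⊆ Su (f1.perm σ) i := by
      intro i
      rw [hS1]
      by_cases hi : i = 0
      · subst hi
        rw [Function.update_self, hF0]
        simp
      · rw [Function.update_of_ne hi]
    obtain ⟨m1, m2⟩ := hmem F (f1.perm σ) hsub
    rw [hF, hF1] at m1 m2
    refine ⟨m1, ?_⟩
    rw [m2, hS1, hh3 (Su F) v w hvw hF0 ?_, hM]
    refine ⟨fun i => hc1 _, ?_, ?_, ?_⟩
    · rw [← hS1]; exact fun i => hc1 _
    · rw [← hS1]; exact hsub
    · intro i j u hij h1 h2
      exact hij (F.2 (hc2 _ _ u h1 h2))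
  · intro x y hxy
    obtain ⟨f, rfl⟩ := Quot.exists_rep x
    obtain ⟨f1, rfl⟩ := Quot.exists_rep y
    have hxy' : typ f = typ f1 := hxy
    rw [typ_eq, typ_eq] at hxy'
    obtain ⟨σ, hσ⟩ := exists_perm_of_map_eq _ _ hxy'
    have hF1 : Quot.mk (PermRel G) (f1.perm σ) = Quot.mk (PermRel G) f1 := glev_mk_perm f1 _
    have hS1 : Su (f1.perm σ) = Su f := by
      funext i
      exact hσ i
    obtain ⟨m1, m2⟩ := hmem f (f1.perm σ) (fun i => by rw [hS1])
    rw [hF1] at m1 m2
    refine ⟨m1, ?_⟩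
    rw [m2, hS1]
    have hOkf : Ok G (Su f) (Su f) := hOk f f (hnest V G f).1
    have := hh2 _ _ _ hOkf hOkf
    simpa using this

end Pool.Agent.W298.GB
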