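import Pool.Agent.W584.GB.Defs

set_option autoImplicit false

/-!
# Labels of all moves (task GB-LAB)
-/

namespace Pool.Agent.W298.GB

open Pool.Agent.W584.GB

section

variable {V : Type} [Fintype V] [DecidableEq V]

/-- Label of a move or of no move. -/
def lst {A : Type} [Group A] (s : Finset V → Finset V → Multiset (Finset V) → A)
    (c c' : Finset V) (M : Multiset (Finset V)) : A := if c = c' then 1 else s c c' M

/-- Label of a move of a triple. -/
def lh {A : Type} [Group A] (s : Finset V → Finset V → Multiset (Finset V) → A)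
    (a a' : Fin 3 → Finset V) : A :=
  lst s (a 0) (a' 0) {a 1, a 2} * lst s (a 1) (a' 1) {a' 0, a 2} * lst s (a 2) (a' 2) {a' 0, a' 1}

/-- Not the same vertex. -/
def Dis (x y : Finset V) : Prop := ∀ u, x = {u} → y ≠ {u}

omit [Fintype V] in
theorem lab_cell_cases (G : SimpleGraph V) (c c' : Finset V)
    (h : IsCell G c) (h' : IsCell G c') (hs : c ⊆ c') :
    c = c' ∨ ∃ v w, G.Adj v w ∧ c = {v} ∧ c' = {v, w} := by
  rcases h with ⟨u, rfl⟩ | ⟨u, w, huw, rfl⟩
  · rcases h' with ⟨u', rfl⟩ | ⟨u', w', huw', rfl⟩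
    · left
      have : u ∈ ({u'} : Finset V) := hs (by simp)
      rw [Finset.mem_singleton] at this
      rw [this]
    · right
      have : u ∈ ({u', w'} : Finset V) := hs (by simp)
      rw [Finset.mem_insert, Finset.mem_singleton] at this
      rcases this with rfl | rfl
      · exact ⟨u, w', huw', rfl, rfl⟩
      · exact ⟨u, u', huw'.symm, rfl, Finset.pair_comm _ _⟩
  · rcases h' with ⟨u', rfl⟩ | ⟨u', w', huw', rfl⟩
    · exfalso
      have h1 : u ∈ ({u'} : Finset V) := hs (by simp)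
      have h2 : w ∈ ({u'} : Finset V) := hs (by simp)
      rw [Finset.mem_singleton] at h1 h2
      exact huw.ne (h1.trans h2.symm)
    · left
      apply Finset.eq_of_subset_of_card_le hs
      rw [Finset.card_pair huw.ne, Finset.card_pair huw'.ne]

omit [Fintype V] in
theorem lab_cell_nonempty (G : SimpleGraph V) (c : Finset V)
    (h : IsCell G c) : c.Nonempty := by
  rcases h with ⟨u, rfl⟩ | ⟨u, w, huw, rfl⟩ <;> simp

omit [Fintype V] [DecidableEq V] in
theorem Dis.mono {x y x' y' : Finset V} (h : Dis x y) (hx : x.Nonempty) (hy : y.Nonempty)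
    (h1 : x ⊆ x') (h2 : y ⊆ y') : Dis x' y' := by
  intro u hx' hy'
  subst hx'
  subst hy'
  have e1 : x = {u} := (Finset.Nonempty.subset_singleton_iff hx).mp h1
  have e2 : y = {u} := (Finset.Nonempty.subset_singleton_iff hy).mp h2
  exact h u e1 e2

omit [Fintype V] in
theorem pair_ne (G : SimpleGraph V) {v w : V} (h : G.Adj v w) : ({v} : Finset V) ≠ {v, w} := by
  intro he
  have : w ∈ ({v} : Finset V) := by rw [he]; simp
  rw [Finset.mem_singleton] at this
  exact h.ne this.symm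

omit [Fintype V] in
theorem adm_of_dis (G : SimpleGraph V) {x y c : Finset V} (hx : IsCell G x) (hy : IsCell G y)
    (hc : IsCell G c) (h1 : Dis x y) (h2 : Dis x c) (h3 : Dis y c) :
    Adm G (x ::ₘ y ::ₘ {c}) := by
  refine ⟨by simp, ?_, ?_⟩
  · intro d hd
    simp only [Multiset.mem_cons, Multiset.mem_singleton] at hd
    rcases hd with rfl | rfl | rfl <;> assumption
  · intro u
    rw [Multiset.count_cons, Multiset.count_cons, Multiset.count_singleton]
    by_cases e1 : ({u} : Finset V) = x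
    · have e2 : ¬ ({u} : Finset V) = y := fun h => h1 u e1.symm h.symm
      have e3 : ¬ ({u} : Finset V) = c := fun h => h2 u e1.symm h.symm
      rw [if_pos e1, if_neg e2, if_neg e3]
    · by_cases e2 : ({u} : Finset V) = y
      · have e3 : ¬ ({u} : Finset V) = c := fun h => h3 u e2.symm h.symm
        rw [if_neg e1, if_pos e2, if_neg e3]
      · rw [if_neg e1, if_neg e2]
        split_ifs <;> simp

theorem lst_comm {G : SimpleGraph V} {A : Type} [Group A]
    {s : Finset V → Finset V → Multiset (Finset V) → A} (hs : Sq G s)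
    {x x' y y' c : Finset V} (hx : IsCell G x) (hx' : IsCell G x') (hy : IsCell G y)
    (hy' : IsCell G y') (hc : IsCell G c) (h1 : Dis x y) (h2 : Dis x c) (h3 : Dis y c)
    (sx : x ⊆ x') (sy : y ⊆ y') :
    lst s x x' {y, c} * lst s y y' {x', c} = lst s y y' {x, c} * lst s x x' {y', c} := by
  rcases lab_cell_cases G x x' hx hx' sx with rfl | ⟨v, w, hvw, rfl, rfl⟩
  · simp [lst]
  · rcases lab_cell_cases G y y' hy hy' sy with rfl | ⟨v', w', hvw', rfl, rfl⟩
    · simp [lst]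
    · simp only [lst, if_neg (pair_ne G hvw), if_neg (pair_ne G hvw')]
      exact hs v w v' w' c hvw hvw' (adm_of_dis G hx hy hc h1 h2 h3)

theorem lst_trans {G : SimpleGraph V} {A : Type} [Group A]
    (s : Finset V → Finset V → Multiset (Finset V) → A)
    {x x' x'' : Finset V} (hx : IsCell G x) (hx' : IsCell G x') (hx'' : IsCell G x'')
    (s1 : x ⊆ x') (s2 : x' ⊆ x'') (M : Multiset (Finset V)) :
    lst s x x' M * lst s x' x'' M = lst s x x'' M := by
  rcases lab_cell_cases G x x' hx hx' s1 with rfl | ⟨v, w, hvw, rfl, rfl⟩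
  · simp [lst]
  · rcases lab_cell_cases G _ x'' hx' hx'' s2 with rfl | ⟨v', w', hvw', h, rfl⟩
    · simp [lst]
    · exfalso
      have h1 : ({v, w} : Finset V).card = 2 := Finset.card_pair hvw.ne
      rw [h] at h1
      simp at h1

theorem pc (a b : Finset V) : ({a, b} : Multiset (Finset V)) = {b, a} := Multiset.pair_comm a b

theorem lh_swap01 {G : SimpleGraph V} {A : Type} [Group A]
    {s : Finset V → Finset V → Multiset (Finset V) → A} (hs : Sq G s)
    (a a' : Fin 3 → Finset V) (h : Ok G a a') :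
    lh s (a ∘ Equiv.swap 0 1) (a' ∘ Equiv.swap 0 1) = lh s a a' := by
  obtain ⟨h1, h2, h3, h4⟩ := h
  have e0 : (Equiv.swap (0 : Fin 3) 1) 0 = 1 := by decide
  have e1 : (Equiv.swap (0 : Fin 3) 1) 1 = 0 := by decide
  have e2 : (Equiv.swap (0 : Fin 3) 1) 2 = 2 := by decide
  simp only [lh, Function.comp, e0, e1, e2]
  rw [lst_comm hs (h1 1) (h2 1) (h1 0) (h2 0) (h1 2) (fun u => h4 1 0 u (by decide))
    (fun u => h4 1 2 u (by decide)) (fun u => h4 0 2 u (by decide)) (h3 1) (h3 0), pc (a' 1) (a' 0)]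

theorem lh_swap12 {G : SimpleGraph V} {A : Type} [Group A]
    {s : Finset V → Finset V → Multiset (Finset V) → A} (hs : Sq G s)
    (a a' : Fin 3 → Finset V) (h : Ok G a a') :
    lh s (a ∘ Equiv.swap 1 2) (a' ∘ Equiv.swap 1 2) = lh s a a' := by
  obtain ⟨h1, h2, h3, h4⟩ := h
  have e0 : (Equiv.swap (1 : Fin 3) 2) 0 = 0 := by decide
  have e1 : (Equiv.swap (1 : Fin 3) 2) 1 = 2 := by decide
  have e2 : (Equiv.swap (1 : Fin 3) 2) 2 = 1 := by decide
  have d21 : Dis (a 2) (a 1) := fun u => h4 2 1 u (by decide)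
  have d20 : Dis (a 2) (a' 0) := Dis.mono (fun u => h4 2 0 u (by decide))
    (lab_cell_nonempty G _ (h1 2)) (lab_cell_nonempty G _ (h1 0)) (Finset.Subset.refl _) (h3 0)
  have d10 : Dis (a 1) (a' 0) := Dis.mono (fun u => h4 1 0 u (by decide))
    (lab_cell_nonempty G _ (h1 1)) (lab_cell_nonempty G _ (h1 0)) (Finset.Subset.refl _) (h3 0)
  simp only [lh, Function.comp, e0, e1, e2]
  rw [mul_assoc, mul_assoc, pc (a 2) (a 1)]
  congr 1
  rw [pc (a' 0) (a 1), pc (a' 0) (a' 2), lst_comm hs (h1 2) (h2 2) (h1 1) (h2 1) (h2 0) d21 d20 d10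
    (h3 2) (h3 1), pc (a 2) (a' 0), pc (a' 1) (a' 0)]

omit [Fintype V] in
theorem ok_perm {G : SimpleGraph V} {a a' : Fin 3 → Finset V} (h : Ok G a a')
    (σ : Equiv.Perm (Fin 3)) : Ok G (a ∘ σ) (a' ∘ σ) := by
  obtain ⟨h1, h2, h3, h4⟩ := h
  refine ⟨fun i => h1 _, fun i => h2 _, fun i => h3 _, ?_⟩
  intro i j u hij
  exact h4 (σ i) (σ j) u (fun h => hij (σ.injective h))

theorem lh_perm {G : SimpleGraph V} {A : Type} [Group A]
    {s : Finset V → Finset V → Multiset (Finset V) → A} (hs : Sq G s)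
    (a a' : Fin 3 → Finset V) (σ : Equiv.Perm (Fin 3)) (h : Ok G a a') :
    lh s (a ∘ σ) (a' ∘ σ) = lh s a a' := by
  have hmul : ∀ σ τ : Equiv.Perm (Fin 3),
      (∀ a a' : Fin 3 → Finset V, Ok G a a' → lh s (a ∘ σ) (a' ∘ σ) = lh s a a') →
      (∀ a a' : Fin 3 → Finset V, Ok G a a' → lh s (a ∘ τ) (a' ∘ τ) = lh s a a') →
      (∀ a a' : Fin 3 → Finset V, Ok G a a' →
        lh s (a ∘ (σ * τ : Equiv.Perm (Fin 3))) (a' ∘ (σ * τ : Equiv.Perm (Fin 3))) =
          lh s a a') := by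
    intro σ τ hσ hτ a a' h
    have e : ∀ b : Fin 3 → Finset V, b ∘ (σ * τ : Equiv.Perm (Fin 3)) = (b ∘ σ) ∘ τ := by
      intro b; rfl
    rw [e, e, hτ _ _ (ok_perm h σ), hσ a a' h]
  have k0 : ∀ a a' : Fin 3 → Finset V, Ok G a a' →
      lh s (a ∘ (1 : Equiv.Perm (Fin 3))) (a' ∘ (1 : Equiv.Perm (Fin 3))) = lh s a a' := by
    intro a a' _; rfl
  have k1 := fun a a' (h : Ok G a a') => lh_swap01 hs a a' h
  have k2 := fun a a' (h : Ok G a a') => lh_swap12 hs a a' h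
  have hall : ∀ σ : Equiv.Perm (Fin 3), σ = 1 ∨ σ = Equiv.swap 0 1 ∨ σ = Equiv.swap 1 2 ∨
      σ = Equiv.swap 0 1 * Equiv.swap 1 2 ∨ σ = Equiv.swap 1 2 * Equiv.swap 0 1 ∨
      σ = Equiv.swap 0 1 * (Equiv.swap 1 2 * Equiv.swap 0 1) := by decide
  rcases hall σ with rfl | rfl | rfl | rfl | rfl | rfl
  · exact k0 a a' h
  · exact k1 a a' h
  · exact k2 a a' h
  · exact hmul _ _ k1 k2 a a' h
  · exact hmul _ _ k2 k1 a a' h
  · exact hmul _ _ k1 (hmul _ _ k2 k1) a a' h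

theorem lh_mul {G : SimpleGraph V} {A : Type} [Group A]
    {s : Finset V → Finset V → Multiset (Finset V) → A} (hs : Sq G s)
    (a a' a'' : Fin 3 → Finset V) (h : Ok G a a') (h' : Ok G a' a'') :
    lh s a a' * lh s a' a'' = lh s a a'' := by
  obtain ⟨c, c', s1, d⟩ := h
  obtain ⟨-, c'', s2, -⟩ := h'
  have n : ∀ i, (a i).Nonempty := fun i => lab_cell_nonempty G _ (c i)
  have s12 : ∀ i, a i ⊆ a'' i := fun i => (s1 i).trans (s2 i)
  have D : ∀ i j, i ≠ j → ∀ x y : Finset V, a i ⊆ x → a j ⊆ y → Dis x y := by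
    intro i j hij x y hx hy
    exact Dis.mono (fun u => d i j u hij) (n i) (n j) hx hy
  have r : ∀ i, a i ⊆ a i := fun i => Finset.Subset.refl _
  -- the six steps
  have t1 : lst s (a 2) (a' 2) {a' 0, a' 1} * lst s (a' 0) (a'' 0) {a' 1, a' 2} =
      lst s (a' 0) (a'' 0) {a' 1, a 2} * lst s (a 2) (a' 2) {a'' 0, a' 1} := by
    rw [pc (a' 1) (a' 2), pc (a' 1) (a 2)]
    exact lst_comm hs (c 2) (c' 2) (c' 0) (c'' 0) (c' 1)
      (D 2 0 (by decide) _ _ (r 2) (s1 0)) (D 2 1 (by decide) _ _ (r 2) (s1 1))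
      (D 0 1 (by decide) _ _ (s1 0) (s1 1)) (s1 2) (s2 0)
  have t2 : lst s (a 1) (a' 1) {a' 0, a 2} * lst s (a' 0) (a'' 0) {a' 1, a 2} =
      lst s (a' 0) (a'' 0) {a 1, a 2} * lst s (a 1) (a' 1) {a'' 0, a 2} :=
    lst_comm hs (c 1) (c' 1) (c' 0) (c'' 0) (c 2)
      (D 1 0 (by decide) _ _ (r 1) (s1 0)) (D 1 2 (by decide) _ _ (r 1) (r 2))
      (D 0 2 (by decide) _ _ (s1 0) (r 2)) (s1 1) (s2 0)
  have t3 : lst s (a 0) (a' 0) {a 1, a 2} * lst s (a' 0) (a'' 0) {a 1, a 2} =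
      lst s (a 0) (a'' 0) {a 1, a 2} := lst_trans s (c 0) (c' 0) (c'' 0) (s1 0) (s2 0) _
  have t4 : lst s (a 2) (a' 2) {a'' 0, a' 1} * lst s (a' 1) (a'' 1) {a'' 0, a' 2} =
      lst s (a' 1) (a'' 1) {a'' 0, a 2} * lst s (a 2) (a' 2) {a'' 0, a'' 1} := by
    rw [pc (a'' 0) (a' 1), pc (a'' 0) (a' 2), pc (a'' 0) (a 2), pc (a'' 0) (a'' 1)]
    exact lst_comm hs (c 2) (c' 2) (c' 1) (c'' 1) (c'' 0)
      (D 2 1 (by decide) _ _ (r 2) (s1 1)) (D 2 0 (by decide) _ _ (r 2) (s12 0))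
      (D 1 0 (by decide) _ _ (s1 1) (s12 0)) (s1 2) (s2 1)
  have t5 : lst s (a 1) (a' 1) {a'' 0, a 2} * lst s (a' 1) (a'' 1) {a'' 0, a 2} =
      lst s (a 1) (a'' 1) {a'' 0, a 2} := lst_trans s (c 1) (c' 1) (c'' 1) (s1 1) (s2 1) _
  have t6 : lst s (a 2) (a' 2) {a'' 0, a'' 1} * lst s (a' 2) (a'' 2) {a'' 0, a'' 1} =
      lst s (a 2) (a'' 2) {a'' 0, a'' 1} := lst_trans s (c 2) (c' 2) (c'' 2) (s1 2) (s2 2) _
  unfold lh
  calc lst s (a 0) (a' 0) {a 1, a 2} * lst s (a 1) (a' 1) {a' 0, a 2} *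
        lst s (a 2) (a' 2) {a' 0, a' 1} *
        (lst s (a' 0) (a'' 0) {a' 1, a' 2} * lst s (a' 1) (a'' 1) {a'' 0, a' 2} *
          lst s (a' 2) (a'' 2) {a'' 0, a'' 1})
      = lst s (a 0) (a' 0) {a 1, a 2} * lst s (a 1) (a' 1) {a' 0, a 2} *
        (lst s (a 2) (a' 2) {a' 0, a' 1} * lst s (a' 0) (a'' 0) {a' 1, a' 2}) *
        lst s (a' 1) (a'' 1) {a'' 0, a' 2} * lst s (a' 2) (a'' 2) {a'' 0, a'' 1} := by
        simp only [mul_assoc]
    _ = lst s (a 0) (a' 0) {a 1, a 2} *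
        (lst s (a 1) (a' 1) {a' 0, a 2} * lst s (a' 0) (a'' 0) {a' 1, a 2}) *
        (lst s (a 2) (a' 2) {a'' 0, a' 1} * lst s (a' 1) (a'' 1) {a'' 0, a' 2}) *
        lst s (a' 2) (a'' 2) {a'' 0, a'' 1} := by
        rw [t1]; simp only [mul_assoc]
    _ = (lst s (a 0) (a' 0) {a 1, a 2} * lst s (a' 0) (a'' 0) {a 1, a 2}) *
        (lst s (a 1) (a' 1) {a'' 0, a 2} * lst s (a' 1) (a'' 1) {a'' 0, a 2}) *
        (lst s (a 2) (a' 2) {a'' 0, a'' 1} * lst s (a' 2) (a'' 2) {a'' 0, a'' 1}) := by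
        rw [t2, t4]; simp only [mul_assoc]
    _ = _ := by rw [t3, t5, t6]

end

theorem lab : S_lab := by
  intro V _ _ G A _ s hs
  refine ⟨lh s, ?_, ?_, ?_⟩
  · intro a a' σ h
    exact lh_perm hs a a' σ h
  · intro a a' a'' h h'
    exact lh_mul hs a a' a'' h h'
  · intro a v w hvw h0 _
    have e1 : (Function.update a 0 ({v, w} : Finset V)) 1 = a 1 :=
      Function.update_of_ne (by decide) _ _
    have e2 : (Function.update a 0 ({v, w} : Finset V)) 2 = a 2 :=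
      Function.update_of_ne (by decide) _ _
    simp only [lh, lst, Function.update_self, e1, e2, if_true, mul_one, h0,
      if_neg (pair_ne G hvw)]
    rfl

end Pool.Agent.W298.GB
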