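import Pool.Agent.W584.GB.Defs

set_option autoImplicit false

/-!
# The reduction to combinatorics (task GB-RED)
-/

namespace Pool.Agent.W298.GB

open Pool.Agent.W584.GB

variable {V : Type} [Fintype V] [DecidableEq V]

omit [Fintype V] in
/-- Moving a point from a vertex into an adjacent edge keeps a type admissible. -/
theorem adm_move (G : SimpleGraph V) (v w : V) (M : Multiset (Finset V)) (h : G.Adj v w)
    (hA : Adm G (({v} : Finset V) ::ₘ M)) : Adm G (({v, w} : Finset V) ::ₘ M) := by
  obtain ⟨h1, h2, h3⟩ := hA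
  refine ⟨by simpa using h1, ?_, ?_⟩
  · intro c hc
    rcases Multiset.mem_cons.mp hc with rfl | hc
    · exact Or.inr ⟨v, w, h, rfl⟩
    · exact h2 c (Multiset.mem_cons_of_mem hc)
  · intro u
    have h4 := h3 u
    have hne : ({u} : Finset V) ≠ {v, w} := by
      intro he
      have hv : v ∈ ({u} : Finset V) := by rw [he]; simp
      have hw : w ∈ ({u} : Finset V) := by rw [he]; simp
      rw [Finset.mem_singleton] at hv hw
      exact h.ne (hv.trans hw.symm)
    rw [Multiset.count_cons_of_ne hne]
    refine le_trans ?_ h4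
    exact Multiset.count_le_count_cons _ _ _

theorem red : S_vk → S_nbhd → S_glev → S_uniq → S_type → S_red := by
  intro hvk hnbhd hglev huniq htype V _ _ G hG A _ s τ0 hU x0 hx0
  obtain ⟨N, hN⟩ := hnbhd V G hG
  obtain ⟨g, hg1, hg2, hg3⟩ := hglev V G hG N hN A s hU.sq
  obtain ⟨hadm, hreal⟩ := htype V G
  classical
  obtain ⟨R, hR, hRx⟩ : ∃ R : Multiset (Finset V) → UC G,
      (∀ τ, Adm G τ → ty (R τ) = τ) ∧ R τ0 = x0 := by
    have : Nonempty (UC G) := ⟨x0⟩
    choose! R hR using hreal
    refine ⟨fun τ => if τ = τ0 then x0 else R τ, ?_, by simp⟩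
    intro τ hτ
    by_cases h : τ = τ0
    · simp only [h, if_true, hx0]
    · simp only [h, if_false, hR τ hτ]
  have hRU : ∀ (v w : V) (M : Multiset (Finset V)), G.Adj v w →
      Adm G (({v} : Finset V) ::ₘ M) →
      R (({v, w} : Finset V) ::ₘ M) ∈ N.U (R (({v} : Finset V) ::ₘ M)) ∧
        g (R (({v} : Finset V) ::ₘ M)) (R (({v, w} : Finset V) ::ₘ M)) = s {v} {v, w} M := by
    intro v w M h hA
    exact hg2 _ _ v w M h (hR _ hA) (hR _ (adm_move G v w M h hA))
  have hrep : ∀ x : UC G, ty (R (ty x)) = ty x := fun x => hR _ (hadm x)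
  apply hvk (UC G) N A g x0 hg1
  · -- existence
    intro π _ k hk
    have hkk : ∀ x, k x x = 1 := by
      intro x
      have := hk x x (N.mem x) x (N.mem x)
      simpa using this
    obtain ⟨φT, Ψ, hφ0, hφ⟩ := hU.ex π (fun c c' M => k (R (c ::ₘ M)) (R (c' ::ₘ M))) (by
      intro v w v' w' c h h' hA
      simp only
      have hA' : Adm G (({v'} : Finset V) ::ₘ ({v} : Finset V) ::ₘ {c}) := by
        rw [Multiset.cons_swap]; exact hA
      have hB := adm_move G v w _ h hA
      have hB' := adm_move G v' w' _ h' hA'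
      have hB2 : Adm G (({v'} : Finset V) ::ₘ ({v, w} : Finset V) ::ₘ {c}) := by
        rw [Multiset.cons_swap]; exact hB
      have hB2' : Adm G (({v} : Finset V) ::ₘ ({v', w'} : Finset V) ::ₘ {c}) := by
        rw [Multiset.cons_swap]; exact hB'
      have e1 := (hRU v w _ h hA).1
      have e2 := (hRU v' w' _ h' hB2).1
      have e1' := (hRU v' w' _ h' hA').1
      have e2' := (hRU v w _ h hB2').1
      rw [Multiset.cons_swap ({v'} : Finset V) ({v, w} : Finset V)] at e2 ⊢
      rw [hk _ _ e1 _ e2]
      rw [Multiset.cons_swap ({v} : Finset V) ({v', w'} : Finset V)] at e2' ⊢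
      rw [Multiset.cons_swap ({v'} : Finset V) ({v} : Finset V)] at e1' ⊢
      rw [hk _ _ e1' _ e2']
      rw [Multiset.cons_swap ({v', w'} : Finset V) ({v, w} : Finset V)])
    refine ⟨fun x => φT (ty x) * k (R (ty x)) x, Ψ, ?_, ?_⟩
    · simp only [hx0, hφ0, hRx, hkk, mul_one]
    · have key := huniq V G hG N hN π
        (fun x y => (φT (ty x) * k (R (ty x)) x) * k x y * (φT (ty y) * k (R (ty y)) y)⁻¹)
        (fun x y => Ψ (g x y)) (by
          intro x y hy z hz
          rw [← hk x y hy z hz]
          group) (by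
          intro x y hy z hz
          rw [← hg1 x y hy z hz, map_mul]) (by
          intro x y v w M h hx hy
          have hAx : Adm G (({v} : Finset V) ::ₘ M) := hx ▸ hadm x
          have m1 : x ∈ N.U (R (ty x)) := (hg3 _ _ (hrep x)).1
          have m2 : y ∈ N.U x := (hg2 x y v w M h hx hy).1
          have m3 : R (ty y) ∈ N.U (R (ty x)) := (hg2 _ _ v w M h ((hrep x).trans hx)
            ((hrep y).trans hy)).1
          have m4 : y ∈ N.U (R (ty y)) := (hg3 _ _ (hrep y)).1
          have e1 := hk _ _ m1 _ m2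
          have e2 := hk _ _ m3 _ m4
          have e3 : k (R (ty x)) (R (ty y)) =
              (φT (ty x))⁻¹ * Ψ (s {v} {v, w} M) * φT (ty y) := by
            have := hφ v w M h hAx
            rw [← hx, ← hy] at this
            exact this
          rw [(hg2 x y v w M h hx hy).2]
          have e4 : Ψ (s {v} {v, w} M) = φT (ty x) * k (R (ty x)) (R (ty y)) * (φT (ty y))⁻¹ := by
            rw [e3]; group
          rw [e4]
          have e5 : k (R (ty x)) (R (ty y)) = k (R (ty x)) x * k x y * (k (R (ty y)) y)⁻¹ := by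
            rw [e1, ← e2]; group
          rw [e5]
          group) (by
          intro x y hxy
          rw [(hg3 x y hxy).2, map_one]
          have m1 : x ∈ N.U (R (ty x)) := (hg3 _ _ (hrep x)).1
          have m2 : y ∈ N.U x := (hg3 x y hxy).1
          have e1 := hk _ _ m1 _ m2
          have e2 : φT (ty x) * k (R (ty x)) x * k x y = φT (ty y) * k (R (ty y)) y := by
            rw [mul_assoc, e1, hxy]
          rw [e2, mul_inv_cancel])
      intro x y hy
      have := key x y hy
      rw [← this]
      group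
  · -- connectedness
    intro S α hα x
    have h1 : α (R (ty x)) = α x := hα _ _ (hg3 _ _ (hrep x)).1 (hg3 _ _ (hrep x)).2
    have h2 := hU.conn S (fun τ => α (R τ)) (by
      intro v w M h hA hs
      apply hα _ _ (hRU v w M h hA).1
      rw [(hRU v w M h hA).2, hs]) (ty x) (hadm x)
    simp only [hRx] at h2
    rw [← h1, h2]
  · -- generation
    rw [eq_top_iff, ← hU.gen]
    apply Subgroup.closure_mono
    rintro a ⟨v, w, M, h, hA, rfl⟩
    exact ⟨_, _, (hRU v w M h hA).1, (hRU v w M h hA).2.symm⟩

end Pool.Agent.W298.GB
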