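import Pool.Agent.W584.GB.Defs

set_option autoImplicit false

/-!
# Multiplicative functions are determined by elementary moves (task GB-UNIQ)
-/

namespace Pool.Agent.W298.GB

open Pool.Agent.W584.GB

/-- Two cells, one inside the other: equal, or a vertex in an edge. -/
theorem cell_cases {V : Type} [DecidableEq V] (G : SimpleGraph V) (c c' : Finset V)
    (h : IsCell G c) (h' : IsCell G c') (hs : c ⊆ c') :
    c = c' ∨ ∃ v w, G.Adj v w ∧ c = {v} ∧ c' = {v, w} := by
  rcases h with ⟨u, rfl⟩ | ⟨u, w, huw, rfl⟩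
  · rcases h' with ⟨u', rfl⟩ | ⟨u', w', huw', rfl⟩
    · left
      have : u ∈ ({u'} : Finset V) := hs (by simp)
      rw [Finset.mem_singleton] at this
      rw [this]
    · right
      have : u ∈ ({u', w'} : Finset V) := hs (by simp)
      rw [Finset.mem_insert, Finset.mem_singleton] at this
      rcases this with rfl | rfl
      · exact ⟨u, w', huw', rfl, rfl⟩
      · exact ⟨u, u', huw'.symm, rfl, Finset.pair_comm _ _⟩
  · rcases h' with ⟨u', rfl⟩ | ⟨u', w', huw', rfl⟩
    · exfalso
      have h1 : u ∈ ({u'} : Finset V) := hs (by simp)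
      have h2 : w ∈ ({u'} : Finset V) := hs (by simp)
      rw [Finset.mem_singleton] at h1 h2
      exact huw.ne (h1.trans h2.symm)
    · left
      apply Finset.eq_of_subset_of_card_le hs
      rw [Finset.card_pair huw.ne, Finset.card_pair huw'.ne]

theorem cell_nonempty {V : Type} [DecidableEq V] (G : SimpleGraph V) (c : Finset V)
    (h : IsCell G c) : c.Nonempty := by
  rcases h with ⟨u, rfl⟩ | ⟨u, w, huw, rfl⟩ <;> simp

variable {V : Type} [Fintype V] [DecidableEq V]

theorem typ_split {G : SimpleGraph V} (f : Conf G) (j : Fin 3) :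
    typ f = supp (f.1 j) ::ₘ ((Finset.univ.erase j).val.map fun i => supp (f.1 i)) := by
  unfold typ
  conv_lhs => rw [← Finset.insert_erase (Finset.mem_univ j)]
  rw [Finset.insert_val_of_notMem (by simp), Multiset.map_cons]

theorem typ_rest {G : SimpleGraph V} (f f1 : Conf G) (j : Fin 3)
    (h : ∀ i, i ≠ j → supp (f.1 i) = supp (f1.1 i)) :
    ((Finset.univ.erase j).val.map fun i => supp (f.1 i)) =
      ((Finset.univ.erase j).val.map fun i => supp (f1.1 i)) := by
  apply Multiset.map_congr rfl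
  intro i hi
  apply h
  have : i ∈ (Finset.univ.erase j) := hi
  exact (Finset.mem_erase.mp this).1

theorem mk_perm {G : SimpleGraph V} (f : Conf G) (σ : Equiv.Perm (Fin 3)) :
    Quot.mk (PermRel G) (f.perm σ) = Quot.mk (PermRel G) f :=
  (Quot.sound ⟨σ, rfl⟩).symm

theorem uniq : S_match → S_real → S_cell → S_quot → S_uniq := by
  intro hmatch hreal hcell _ V _ _ G _ N hN A _ g g' hg hg' hel hty x y hy
  obtain ⟨hc1, hc2, hc3⟩ := hcell V G
  -- one step
  have hmem : ∀ f f1 : Conf G, (∀ i, supp (f.1 i) ⊆ supp (f1.1 i)) →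
      Quot.mk (PermRel G) f1 ∈ N.U (Quot.mk (PermRel G) f) := by
    intro f f1 h
    obtain ⟨σ, hσ, -⟩ := hmatch V G f f1 h
    rw [hN]
    exact ⟨f1.perm σ, hσ, mk_perm f1 σ⟩
  have hstep : ∀ (f f1 : Conf G) (j : Fin 3), (∀ i, supp (f.1 i) ⊆ supp (f1.1 i)) →
      (∀ i, i ≠ j → supp (f.1 i) = supp (f1.1 i)) →
      g (Quot.mk (PermRel G) f) (Quot.mk (PermRel G) f1) =
        g' (Quot.mk (PermRel G) f) (Quot.mk (PermRel G) f1) := by
    intro f f1 j h hj
    have e1 := typ_split f j
    have e2 := typ_split f1 j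
    rw [← typ_rest f f1 j hj] at e2
    rcases cell_cases G _ _ (hc1 (f.1 j)) (hc1 (f1.1 j)) (h j) with he | ⟨v, w, hvw, h1, h2⟩
    · apply hty
      show typ f = typ f1
      rw [e1, e2, he]
    · rw [h1] at e1
      rw [h2] at e2
      exact hel _ _ v w _ hvw e1 e2
  -- the chain
  obtain ⟨f, rfl⟩ := Quot.exists_rep x
  rw [hN] at hy
  obtain ⟨f', hf', rfl⟩ := hy
  have hsub := hc3 f f' hf'
  have hsing : ∀ (a : Fin 3 → Finset V), (∀ i, a i = supp (f.1 i) ∨ a i = supp (f'.1 i)) →
      ∀ i j u, i ≠ j → a i = {u} → a j ≠ {u} := by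
    intro a ha i j u hij hi hj
    have key : ∀ l, a l = {u} → supp (f.1 l) = {u} := by
      intro l hl
      rcases ha l with h | h
      · rw [← h, hl]
      · have h1 : supp (f.1 l) ⊆ {u} := by
          have := hsub l
          rwa [← h, hl] at this
        rcases Finset.subset_singleton_iff.mp h1 with h2 | h2
        · have := cell_nonempty G _ (hc1 (f.1 l))
          rw [h2] at this
          exact absurd this (by simp)
        · exact h2
    exact hij (f.2 (hc2 _ _ u (key i hi) (key j hj)))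
  have hcells : ∀ (a : Fin 3 → Finset V), (∀ i, a i = supp (f.1 i) ∨ a i = supp (f'.1 i)) →
      ∀ i, IsCell G (a i) := by
    intro a ha i
    rcases ha i with h | h <;> rw [h] <;> exact hc1 _
  let a1 : Fin 3 → Finset V := fun i => if i = 0 then supp (f'.1 i) else supp (f.1 i)
  let a2 : Fin 3 → Finset V := fun i => if i = 2 then supp (f.1 i) else supp (f'.1 i)
  have ha1 : ∀ i, a1 i = supp (f.1 i) ∨ a1 i = supp (f'.1 i) := by
    intro i
    by_cases h : i = 0
    · right; simp only [a1, h, if_true]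
    · left; simp only [a1, h, if_false]
  have ha2 : ∀ i, a2 i = supp (f.1 i) ∨ a2 i = supp (f'.1 i) := by
    intro i
    by_cases h : i = 2
    · left; simp only [a2, h, if_true]
    · right; simp only [a2, h, if_false]
  obtain ⟨f1, hf1⟩ := hreal V G a1 (hcells a1 ha1) (hsing a1 ha1)
  obtain ⟨f2, hf2⟩ := hreal V G a2 (hcells a2 ha2) (hsing a2 ha2)
  have s1 : ∀ i, supp (f.1 i) ⊆ supp (f1.1 i) := by
    intro i
    rw [hf1]
    by_cases h : i = 0
    · simp only [a1, h, if_true]; exact hsub 0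
    · simp only [a1, h, if_false]; exact Finset.Subset.refl _
  have s2 : ∀ i, supp (f1.1 i) ⊆ supp (f2.1 i) := by
    intro i
    rw [hf1, hf2]
    fin_cases i
    · simp [a1, a2]
    · simpa [a1, a2] using hsub 1
    · simp [a1, a2]
  have s3 : ∀ i, supp (f2.1 i) ⊆ supp (f'.1 i) := by
    intro i
    rw [hf2]
    by_cases h : i = 2
    · simp only [a2, h, if_true]; exact hsub 2
    · simp only [a2, h, if_false]; exact Finset.Subset.refl _
  have t1 : ∀ i, i ≠ 0 → supp (f.1 i) = supp (f1.1 i) := by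
    intro i h
    rw [hf1]
    simp only [a1, h, if_false]
  have t2 : ∀ i, i ≠ 1 → supp (f1.1 i) = supp (f2.1 i) := by
    intro i h
    rw [hf1, hf2]
    fin_cases i
    · simp [a1, a2]
    · exact absurd rfl h
    · simp [a1, a2]
  have t3 : ∀ i, i ≠ 2 → supp (f2.1 i) = supp (f'.1 i) := by
    intro i h
    rw [hf2]
    simp only [a2, h, if_false]
  have m1 := hmem f f1 s1
  have m2 := hmem f1 f2 s2
  have m3 := hmem f2 f' s3
  have m13 := N.sub _ _ m2 m3
  rw [← hg _ _ m1 _ m13, ← hg' _ _ m1 _ m13, ← hg _ _ m2 _ m3, ← hg' _ _ m2 _ m3,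
    hstep f f1 0 s1 t1, hstep f1 f2 1 s2 t2, hstep f2 f' 2 s3 t3]

end Pool.Agent.W298.GB
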