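import Pool.Agent.W584.GB.Defs

set_option autoImplicit false

/-!
# The abstract van Kampen theorem for minimal simply connected neighbourhoods (task GB-VK)
-/

namespace Pool.Agent.W298.GB

open Pool.Agent.W584.GB

variable {X : Type} [TopologicalSpace X]

/-- Two paths inside a simply connected neighbourhood are homotopic. -/
theorem mk_eq_mk (N : Nbhd X) (x y : X) (p q : Path x y) (hp : ∀ t, p t ∈ N.U x)
    (hq : ∀ t, q t ∈ N.U x) : Path.Homotopic.Quotient.mk p = Path.Homotopic.Quotient.mk q := by
  have := N.sc x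
  have hy : y ∈ N.U x := by simpa using hp 1
  let p' : Path (⟨x, N.mem x⟩ : N.U x) ⟨y, hy⟩ :=
    { toFun := fun t => ⟨p t, hp t⟩
      continuous_toFun := by fun_prop
      source' := by simp
      target' := by simp }
  let q' : Path (⟨x, N.mem x⟩ : N.U x) ⟨y, hy⟩ :=
    { toFun := fun t => ⟨q t, hq t⟩
      continuous_toFun := by fun_prop
      source' := by simp
      target' := by simp }
  have h := (SimplyConnectedSpace.paths_homotopic p' q').map
    (⟨Subtype.val, continuous_subtype_val⟩ : C(N.U x, X))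
  rw [Path.Homotopic.Quotient.eq]
  have e1 : p'.map (f := ((⟨Subtype.val, continuous_subtype_val⟩ : C(N.U x, X)) : N.U x → X))
      (by fun_prop) = p := by ext t; rfl
  have e2 : q'.map (f := ((⟨Subtype.val, continuous_subtype_val⟩ : C(N.U x, X)) : N.U x → X))
      (by fun_prop) = q := by ext t; rfl
  rw [e1, e2] at h
  exact h

/-- There is a path inside the neighbourhood. -/
theorem exists_inside (N : Nbhd X) (x y : X) (hy : y ∈ N.U x) :
    ∃ p : Path x y, ∀ t, p t ∈ N.U x := by
  have := N.sc x
  let p' := PathConnectedSpace.somePath (⟨x, N.mem x⟩ : N.U x) ⟨y, hy⟩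
  refine ⟨p'.map (f := Subtype.val) continuous_subtype_val, fun t => ?_⟩
  show (p' t : X) ∈ N.U x
  exact (p' t).2

theorem exists_kap (N : Nbhd X) :
    ∃ kap : ∀ x y : X, y ∈ N.U x → Path.Homotopic.Quotient x y,
      (∀ (x y : X) (h : y ∈ N.U x) (p : Path x y), (∀ t, p t ∈ N.U x) →
        Path.Homotopic.Quotient.mk p = kap x y h) ∧
      (∀ (x y z : X) (h : y ∈ N.U x) (h' : z ∈ N.U y) (h'' : z ∈ N.U x),
        (kap x y h).trans (kap y z h') = kap x z h'') := by
  choose P hP using fun (x y : X) (h : y ∈ N.U x) => exists_inside N x y h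
  refine ⟨fun x y h => Path.Homotopic.Quotient.mk (P x y h), ?_, ?_⟩
  · intro x y h p hp
    exact mk_eq_mk N x y p _ hp (hP x y h)
  · intro x y z h h' h''
    show (Path.Homotopic.Quotient.mk (P x y h)).trans (Path.Homotopic.Quotient.mk (P y z h')) = Path.Homotopic.Quotient.mk (P x z h'')
    rw [← Path.Homotopic.Quotient.mk_trans]
    apply mk_eq_mk N x z _ _ _ (hP x z h'')
    intro t
    rw [Path.trans_apply]
    split_ifs
    · exact hP _ _ _ _
    · exact N.sub x y h (hP y z h' _)

theorem hol_refl {A : Type} [Group A]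
    (Hol : ∀ x y : X, Path.Homotopic.Quotient x y → A)
    (h : ∀ (x y z : X) (p : Path.Homotopic.Quotient x y) (q : Path.Homotopic.Quotient y z),
        Hol x z (p.trans q) = Hol x y p * Hol y z q) (x : X) :
    Hol x x (Path.Homotopic.Quotient.refl x) = 1 := by
  have := h x x x (Path.Homotopic.Quotient.refl x) (Path.Homotopic.Quotient.refl x)
  rw [Path.Homotopic.Quotient.refl_trans] at this
  simpa using this

/-- A loop class as an element of the opposite of the fundamental group: the product is then the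
composition of loops. -/
noncomputable def E {x0 : X} (p : Path.Homotopic.Quotient x0 x0) : (FundamentalGroup X x0)ᵐᵒᵖ :=
  MulOpposite.op (FundamentalGroup.fromPath p)

/-- The inverse of `E`. -/
noncomputable def E' {x0 : X} (p : (FundamentalGroup X x0)ᵐᵒᵖ) : Path.Homotopic.Quotient x0 x0 :=
  FundamentalGroup.toPath p.unop

theorem E_E' {x0 : X} (p : (FundamentalGroup X x0)ᵐᵒᵖ) : E (E' p) = p := rfl

theorem E_inj {x0 : X} {p q : Path.Homotopic.Quotient x0 x0} (h : E p = E q) : p = q := by
  have := congrArg E' h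
  exact this

theorem E_mul {x0 : X} (p q : Path.Homotopic.Quotient x0 x0) : E p * E q = E (p.trans q) := rfl

theorem E_inv {x0 : X} (p : Path.Homotopic.Quotient x0 x0) : (E p)⁻¹ = E p.symm := rfl

theorem E_one {x0 : X} : (1 : (FundamentalGroup X x0)ᵐᵒᵖ) = E (Path.Homotopic.Quotient.refl x0) :=
  rfl

theorem vk : S_gen → S_hol → S_vk := by
  intro hgen hhol X _ N A _ g x0 hmul hex hconn hclos
  obtain ⟨kap, hkap, hkapt⟩ := exists_kap N
  -- path connected
  have hpc : ∀ x, Joined x0 x := by
    have := hconn Prop (fun x => Joined x0 x) (by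
      intro x y hy _
      obtain ⟨p, -⟩ := exists_inside N x y hy
      apply propext
      exact ⟨fun h => h.trans ⟨p⟩, fun h => h.trans ⟨p.symm⟩⟩)
    intro x
    rw [this x]
  obtain ⟨η, hη⟩ : ∃ η : ∀ x, Path.Homotopic.Quotient x0 x,
      η x0 = Path.Homotopic.Quotient.refl x0 := by
    refine ⟨fun x => ((Path.Homotopic.Quotient.mk (hpc x0).somePath).symm).trans
      (Path.Homotopic.Quotient.mk (hpc x).somePath), ?_⟩
    simp
  classical
  let k : X → X → (FundamentalGroup X x0)ᵐᵒᵖ := fun x y =>
    if h : y ∈ N.U x then E ((η x).trans ((kap x y h).trans (η y).symm)) else 1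
  have hk : ∀ x y (h : y ∈ N.U x), k x y = E ((η x).trans ((kap x y h).trans (η y).symm)) := by
    intro x y h
    simp only [k, dif_pos h]
  obtain ⟨φ, Ψ, hφ0, hφ⟩ := hex (FundamentalGroup X x0)ᵐᵒᵖ k (by
    intro x y hy z hz
    have hz' : z ∈ N.U x := N.sub x y hy hz
    rw [hk x y hy, hk y z hz, hk x z hz', E_mul, ← hkapt x y z hy hz hz']
    congr 1
    simp only [Path.Homotopic.Quotient.trans_assoc]
    congr 2
    rw [← Path.Homotopic.Quotient.trans_assoc (η y).symm, Path.Homotopic.Quotient.symm_trans,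
      Path.Homotopic.Quotient.refl_trans])
  have hΨmul : ∀ a b, E' (Ψ (a * b)) = (E' (Ψ a)).trans (E' (Ψ b)) := by
    intro a b
    apply E_inj
    rw [E_E', map_mul, ← E_mul, E_E', E_E']
  have hΨone : E' (Ψ 1) = Path.Homotopic.Quotient.refl x0 := by
    apply E_inj
    rw [E_E', map_one, E_one]
  have hΨinv : ∀ a, E' (Ψ (a⁻¹)) = (E' (Ψ a)).symm := by
    intro a
    apply E_inj
    rw [E_E', map_inv, ← E_inv, E_E']
  let θ : ∀ x, Path.Homotopic.Quotient x0 x := fun x => (E' (φ x)).trans (η x)
  have hθ0 : θ x0 = Path.Homotopic.Quotient.refl x0 := by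
    have : E' (φ x0) = Path.Homotopic.Quotient.refl x0 := by
      apply E_inj
      rw [E_E', hφ0, E_one]
    show (E' (φ x0)).trans (η x0) = _
    rw [this, hη, Path.Homotopic.Quotient.refl_trans]
  have hθ : ∀ x y (h : y ∈ N.U x),
      (θ x).trans (kap x y h) = (E' (Ψ (g x y))).trans (θ y) := by
    intro x y h
    have h1 := hφ x y h
    rw [hk x y h, ← E_E' (φ x), ← E_E' (φ y), ← E_E' (Ψ (g x y)), E_inv, E_mul, E_mul] at h1
    have h3 := E_inj h1
    show ((E' (φ x)).trans (η x)).trans (kap x y h) =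
      (E' (Ψ (g x y))).trans ((E' (φ y)).trans (η y))
    calc ((E' (φ x)).trans (η x)).trans (kap x y h)
        = ((E' (φ x)).trans ((η x).trans ((kap x y h).trans (η y).symm))).trans (η y) := by
          simp only [Path.Homotopic.Quotient.trans_assoc, Path.Homotopic.Quotient.symm_trans,
            Path.Homotopic.Quotient.trans_refl]
      _ = _ := by
          rw [h3]
          simp only [← Path.Homotopic.Quotient.trans_assoc, Path.Homotopic.Quotient.trans_symm,
            Path.Homotopic.Quotient.refl_trans]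
  -- surjectivity
  have hsurj : ∀ q : Path.Homotopic.Quotient x0 x0, ∃ a, E' (Ψ a) = q := by
    intro q
    have := hgen X N (fun x y p => ∃ a, (θ x).trans p = (E' (Ψ a)).trans (θ y)) (by
      rintro x y z p q ⟨a, ha⟩ ⟨b, hb⟩
      refine ⟨a * b, ?_⟩
      rw [← Path.Homotopic.Quotient.trans_assoc, ha, Path.Homotopic.Quotient.trans_assoc, hb,
        hΨmul, Path.Homotopic.Quotient.trans_assoc])
      (by
      rintro x y p ⟨a, ha⟩
      refine ⟨a⁻¹, ?_⟩
      rw [hΨinv]
      calc (θ y).trans p.symm
          = (((E' (Ψ a)).symm.trans (E' (Ψ a))).trans (θ y)).trans p.symm := by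
            simp only [Path.Homotopic.Quotient.symm_trans, Path.Homotopic.Quotient.refl_trans]
        _ = ((E' (Ψ a)).symm.trans ((E' (Ψ a)).trans (θ y))).trans p.symm := by
            simp only [Path.Homotopic.Quotient.trans_assoc]
        _ = _ := by
            rw [← ha]
            simp only [Path.Homotopic.Quotient.trans_assoc, Path.Homotopic.Quotient.trans_symm,
              Path.Homotopic.Quotient.trans_refl])
      (by
      intro x y p hp
      have hy : y ∈ N.U x := by simpa using hp 1
      refine ⟨g x y, ?_⟩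
      rw [hkap x y hy p hp]
      exact hθ x y hy) x0 x0 q
    obtain ⟨a, ha⟩ := this
    refine ⟨a, ?_⟩
    rw [hθ0, Path.Homotopic.Quotient.refl_trans, Path.Homotopic.Quotient.trans_refl] at ha
    exact ha.symm
  -- injectivity
  obtain ⟨Hol, hHol1, hHol2⟩ := hhol X N A g hmul
  have hrefl := hol_refl Hol hHol1
  have hkey : ∀ x y, y ∈ N.U x →
      Hol x0 x (θ x) * g x y = Hol x0 x0 (E' (Ψ (g x y))) * Hol x0 y (θ y) := by
    intro x y h
    have h1 := congrArg (Hol x0 y) (hθ x y h)
    rw [hHol1 x0 x y (θ x) (kap x y h), hHol1 x0 x0 y (E' (Ψ (g x y))) (θ y)] at h1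
    obtain ⟨p, hp⟩ := exists_inside N x y h
    rw [← hkap x y h p hp, hHol2 x y p hp] at h1
    exact h1
  have hα : ∀ x, Hol x0 x (θ x) = 1 := by
    have := hconn A (fun x => Hol x0 x (θ x)) (by
      intro x y h h1
      have h2 := hkey x y h
      rw [h1, hΨone, hrefl] at h2
      simpa using h2)
    intro x
    rw [this x, hθ0, hrefl]
  have hg : ∀ x y, y ∈ N.U x → Hol x0 x0 (E' (Ψ (g x y))) = g x y := by
    intro x y h
    have := hkey x y h
    rw [hα, hα] at this
    simpa using this.symm
  let F : A →* A :=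
    { toFun := fun a => Hol x0 x0 (E' (Ψ a))
      map_one' := by
        show Hol x0 x0 (E' (Ψ 1)) = 1
        rw [hΨone, hrefl]
      map_mul' := by
        intro a b
        show Hol x0 x0 (E' (Ψ (a * b))) = _
        rw [hΨmul, hHol1] }
  have hF : F = MonoidHom.id A := by
    apply MonoidHom.eq_of_eqOn_dense hclos
    rintro a ⟨x, y, hy, rfl⟩
    exact hg x y hy
  have hinj : Function.Injective Ψ := by
    intro a b hab
    have ha : F a = a := by rw [hF]; rfl
    have hb : F b = b := by rw [hF]; rfl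
    rw [← ha, ← hb]
    show Hol x0 x0 (E' (Ψ a)) = Hol x0 x0 (E' (Ψ b))
    rw [hab]
  have hbij : Function.Bijective Ψ := by
    refine ⟨hinj, fun b => ?_⟩
    obtain ⟨a, ha⟩ := hsurj (E' b)
    refine ⟨a, ?_⟩
    rw [← E_E' b, ← ha, E_E']
  exact ⟨(MulEquiv.inv' (FundamentalGroup X x0)).trans (MulEquiv.ofBijective Ψ hbij).symm⟩

end Pool.Agent.W298.GB
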